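import Pool.Agent.Helper88.QT.St2
import Pool.Agent.Helper85.QT.St1

/-!
# Project QT (MP_d112a4_gt): module WCT (counting lattice points)
-/

set_option autoImplicit false

open MeasureTheory Matrix Set Topology
open scoped ENNReal ComplexConjugate

namespace Pool.Agent.Helper18.QT

open Pool.Agent.Helper88.QT Pool.Agent.Helper85.QT Pool.Agent.Helper86.QA

private theorem card_le (a b : ℝ) (hab : a ≤ b) :
    ((Finset.Icc ⌈a⌉ ⌊b⌋).card : ℝ) ≤ 1 + (b - a) := by
  rw [Int.card_Icc]
  rcases le_total 0 (⌊b⌋ + 1 - ⌈a⌉) with h | h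
  · have h1 : (((⌊b⌋ + 1 - ⌈a⌉).toNat : ℤ) : ℝ) = ((⌊b⌋ + 1 - ⌈a⌉ : ℤ) : ℝ) := by
      rw [Int.toNat_of_nonneg h]
    have h2 : (((⌊b⌋ + 1 - ⌈a⌉).toNat : ℕ) : ℝ) = ((⌊b⌋ + 1 - ⌈a⌉ : ℤ) : ℝ) := by
      rw [← h1, Int.cast_natCast]
    rw [h2]
    push_cast
    have := Int.floor_le b
    have := Int.le_ceil a
    linarith
  · rw [Int.toNat_of_nonpos h]
    push_cast
    linarith

/-- **WCT** -/
theorem hWCT (hFDM : Pool.Agent.Helper88.QT.StFDM) : Pool.Agent.Helper88.QT.StWCT := by
  intro lam m hre hm hmle ξ η hξ hη D hD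
  have hlam : lam ≠ 0 := by
    rintro rfl
    simp at hre
  obtain ⟨-, -, -, -, h5, -⟩ := hFDM lam hlam
  have hn : 0 < ‖lam‖ := norm_pos_iff.mpr hlam
  set τ : ℂ := 2 * Real.pi * Complex.I / lam with hτ
  have hτim : τ.im = 2 * Real.pi * lam.re / ‖lam‖ ^ 2 := by
    rw [hτ, Complex.div_im]
    simp only [Complex.mul_im, Complex.mul_re, Complex.I_re, Complex.I_im, Complex.re_ofNat,
      Complex.im_ofNat, Complex.ofReal_re, Complex.ofReal_im]
    rw [Complex.normSq_eq_norm_sq]
    ring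
  have hm0 : 0 < m := by linarith
  have hτm : m ≤ τ.im := by
    rw [hτim]
    exact hmle
  have hτ0 : 0 < τ.im := by linarith
  set x : ℂ := Complex.log ξ / lam with hx
  set y : ℂ := Complex.log η / lam with hy
  have ex : Complex.exp (lam * x) = ξ := by
    rw [hx, mul_div_cancel₀ _ hlam, Complex.exp_log hξ]
  have ey : Complex.exp (lam * y) = η := by
    rw [hy, mul_div_cancel₀ _ hlam, Complex.exp_log hη]
  -- the finite sets
  let K : Finset ℤ := Finset.Icc ⌈((x - y).im - D) / τ.im⌉ ⌊((x - y).im + D) / τ.im⌋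
  let Nn : ℤ → Finset ℤ := fun k =>
    Finset.Icc ⌈(x - y - k * τ).re - D⌉ ⌊(x - y - k * τ).re + D⌋
  have hsub : {n : ℤ | fd lam ξ (Complex.exp (n * lam) * η) ≤ D} ⊆
      ((K.biUnion Nn : Finset ℤ) : Set ℤ) := by
    intro n hnD
    rw [mem_setOf_eq] at hnD
    have hne : Complex.exp (n * lam) * η ≠ 0 := mul_ne_zero (Complex.exp_ne_zero _) hη
    obtain ⟨w, hw1, hw2⟩ := h5 x _ hne
    rw [ex] at hw2
    rw [hw2] at hnD
    have hexp : Complex.exp (lam * w) = Complex.exp (lam * (y + n)) := by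
      rw [hw1, mul_add, Complex.exp_add, ey, mul_comm lam (n : ℂ), mul_comm]
    obtain ⟨k, hk⟩ := Complex.exp_eq_exp_iff_exists_int.mp hexp
    have hwk : w = y + n + k * τ := by
      have h1 : lam * w = lam * (y + n + k * τ) := by
        rw [hk, hτ]
        field_simp
      exact mul_left_cancel₀ hlam h1
    have him : |(x - y).im - k * τ.im| ≤ D := by
      have h1 := Complex.abs_im_le_norm (x - w)
      have h2 : (x - w).im = (x - y).im - k * τ.im := by
        rw [hwk]
        simp only [Complex.sub_im, Complex.add_im, Complex.mul_im, Complex.intCast_re,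
          Complex.intCast_im]
        ring
      rw [h2] at h1
      linarith
    have hren : |(x - y - k * τ).re - n| ≤ D := by
      have h1 := Complex.abs_re_le_norm (x - w)
      have h2 : (x - w).re = (x - y - k * τ).re - n := by
        rw [hwk]
        simp only [Complex.sub_re, Complex.add_re, Complex.mul_re, Complex.intCast_re,
          Complex.intCast_im]
        ring
      rw [h2] at h1
      linarith
    rw [abs_le] at him hren
    rw [Finset.mem_coe, Finset.mem_biUnion]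
    refine ⟨k, ?_, ?_⟩
    · rw [Finset.mem_Icc, Int.ceil_le, Int.le_floor, div_le_iff₀ hτ0, le_div_iff₀ hτ0]
      constructor <;> linarith [him.1, him.2]
    · rw [Finset.mem_Icc, Int.ceil_le, Int.le_floor]
      constructor <;> linarith [hren.1, hren.2]
  refine ⟨(Finset.finite_toSet _).subset hsub, ?_⟩
  have hc1 : {n : ℤ | fd lam ξ (Complex.exp (n * lam) * η) ≤ D}.ncard ≤ (K.biUnion Nn).card := by
    rw [← Set.ncard_coe_finset]
    exact Set.ncard_le_ncard hsub (Finset.finite_toSet _)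
  have hc2 : ((K.biUnion Nn).card : ℝ) ≤ ∑ k ∈ K, ((Nn k).card : ℝ) := by
    exact_mod_cast Finset.card_biUnion_le
  have hc3 : ∑ k ∈ K, ((Nn k).card : ℝ) ≤ K.card * (1 + 2 * D) := by
    rw [← nsmul_eq_mul]
    refine Finset.sum_le_card_nsmul _ _ _ ?_
    intro k _
    refine (card_le _ _ (by linarith)).trans ?_
    linarith
  have hc4 : (K.card : ℝ) ≤ 1 + 2 * D / m := by
    have h0 : ((x - y).im - D) / τ.im ≤ ((x - y).im + D) / τ.im := by
      apply div_le_div_of_nonneg_right _ hτ0.le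
      linarith
    refine (card_le _ _ h0).trans ?_
    have h1 : ((x - y).im + D) / τ.im - ((x - y).im - D) / τ.im = 2 * D / τ.im := by
      rw [← sub_div]
      ring
    rw [h1]
    have h2 : 2 * D / τ.im ≤ 2 * D / m := div_le_div_of_nonneg_left (by linarith) hm0 hτm
    linarith
  have hc5 : (({n : ℤ | fd lam ξ (Complex.exp (n * lam) * η) ≤ D}.ncard : ℕ) : ℝ)
      ≤ ((K.biUnion Nn).card : ℝ) := by exact_mod_cast hc1
  have hD2 : 0 ≤ 1 + 2 * D := by linarith
  calc (({n : ℤ | fd lam ξ (Complex.exp (n * lam) * η) ≤ D}.ncard : ℕ) : ℝ)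
      ≤ K.card * (1 + 2 * D) := hc5.trans (hc2.trans hc3)
    _ ≤ (1 + 2 * D / m) * (1 + 2 * D) := mul_le_mul_of_nonneg_right hc4 hD2
    _ = (1 + 2 * D) * (1 + 2 * D / m) := by ring

end Pool.Agent.Helper18.QT
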